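import Pool.Agent.TH824.BK.Mats

open Polynomial IsDedekindDomain Matrix MeasureTheory
open scoped WithZero RestrictedProduct

noncomputable section
namespace Pool.Agent.TH304.BK
open TH824.BK

theorem v_fin_coe (v : Pl) (k : Kx) : Valued.v (algebraMap Kx (Kv v) k) = v.valuation Kx k :=
  HeightOneSpectrum.valuedAdicCompletion_eq_valuation' v k

theorem v_inf_coe (k : Kx) : Valued.v (algebraMap Kx Kinf k) = RatFunc.inftyValuation (ZMod 2) k := by
  rw [RatFunc.valuedCompletionAtInfty.def]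
  let _ := RatFunc.inftyValued (ZMod 2)
  exact Valued.extensionValuation_apply_coe k

theorem ball_nhds {F : Type} [Field F] [Valued F ℤᵐ⁰] (x r : F) (hr : r ≠ 0) :
    {y : F | Valued.v (y - x) < Valued.v r} ∈ nhds x := by
  rw [Valued.mem_nhds]
  have hr' : Valued.v.restrict r ≠ 0 := by simp [hr]
  exact ⟨Units.mk0 _ hr', fun y hy => (Valued.v.restrict_lt_iff).mp hy⟩

theorem dense_fin (v : Pl) (x r : Kv v) (hr : r ≠ 0) :
    ∃ k : Kx, Valued.v (x - algebraMap Kx (Kv v) k) < Valued.v r := by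
  have hd := HeightOneSpectrum.denseRange_algebraMap Kx v
  obtain ⟨y, hy, ⟨k, rfl⟩⟩ := mem_closure_iff_nhds.1 (hd x) _ (ball_nhds x r hr)
  refine ⟨k, ?_⟩
  rw [Valuation.map_sub_swap]
  exact hy

theorem dense_inf (x r : Kinf) (hr : r ≠ 0) :
    ∃ k : Kx, Valued.v (x - algebraMap Kx Kinf k) < Valued.v r := by
  have hd : DenseRange (algebraMap Kx Kinf) := by
    let _ := RatFunc.inftyValued (ZMod 2)
    exact UniformSpace.Completion.denseRange_coe (α := RatFunc (ZMod 2))
  obtain ⟨y, hy, ⟨k, rfl⟩⟩ := mem_closure_iff_nhds.1 (hd x) _ (ball_nhds x r hr)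
  refine ⟨k, ?_⟩
  rw [Valuation.map_sub_swap]
  exact hy

/-- a generator of the prime ideal -/
def gen (v : Pl) : Rx := Submodule.IsPrincipal.generator v.asIdeal

theorem gen_span (v : Pl) : v.asIdeal = Ideal.span {gen v} :=
  (Submodule.IsPrincipal.span_singleton_generator v.asIdeal).symm

theorem gen_ne_zero (v : Pl) : gen v ≠ 0 := by
  intro h
  apply v.ne_bot
  rw [gen_span, h]
  simp

theorem v_gen (v : Pl) : v.intValuation (gen v) = WithZero.exp (-1 : ℤ) :=
  v.intValuation_singleton (gen_ne_zero v) (gen_span v)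

theorem gen_not_mem {v w : Pl} (h : w ≠ v) : gen v ∉ w.asIdeal := by
  intro hm
  apply h
  have h1 : v.asIdeal ≤ w.asIdeal := by
    rw [gen_span v, Ideal.span_singleton_le_iff_mem]; exact hm
  have h2 : v.asIdeal = w.asIdeal := v.isMaximal.eq_of_le w.isPrime.ne_top h1
  exact (HeightOneSpectrum.ext h2).symm

theorem w_gen {v w : Pl} (h : w ≠ v) : w.intValuation (gen v) = 1 :=
  HeightOneSpectrum.intValuation_eq_one_iff.2 (gen_not_mem h)

end Pool.Agent.TH304.BK
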