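import Pool.Agent.TH304.BK.Base

open Polynomial IsDedekindDomain Matrix MeasureTheory
open scoped WithZero RestrictedProduct

noncomputable section
namespace Pool.Agent.TH304.BK.J840
open TH824.BK Pool.Agent.TH304.BK

theorem vR_le (v : Pl) (r : Rx) : Valued.v (algebraMap Kx (Kv v) (algebraMap Rx Kx r)) ≤ 1 := by
  rw [v_fin_coe]
  exact v.valuation_le_one r

/-- one place -/
theorem one_place (v : Pl) (k : Kx) : ∃ ξ : Kx,
    Valued.v (algebraMap Kx (Kv v) k - algebraMap Kx (Kv v) ξ) ≤ 1 ∧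
    ∀ w : Pl, w ≠ v → Valued.v (algebraMap Kx (Kv w) ξ) ≤ 1 := by
  by_cases hk : Valued.v (algebraMap Kx (Kv v) k) ≤ 1
  · exact ⟨0, by simpa using hk, fun w _ => by simp⟩
  push Not at hk
  rw [v_fin_coe] at hk
  have hk0 : v.valuation Kx k ≠ 0 := (zero_lt_one.trans hk).ne'
  obtain ⟨m, hm⟩ : ∃ m : ℤ, v.valuation Kx k = WithZero.exp m :=
    ⟨WithZero.log (v.valuation Kx k), (WithZero.exp_log hk0).symm⟩
  rw [hm, ← WithZero.exp_zero, WithZero.exp_lt_exp] at hk
  obtain ⟨n, rfl⟩ : ∃ n : ℕ, m = n := ⟨m.toNat, by omega⟩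
  set P : Kx := algebraMap Rx Kx (gen v) with hP
  have hP0 : P ≠ 0 := by
    rw [hP, Ne, map_eq_zero_iff _ (IsFractionRing.injective Rx Kx)]
    exact gen_ne_zero v
  have hvP : v.valuation Kx P = WithZero.exp (-1 : ℤ) := by
    rw [hP, v.valuation_of_algebraMap, v_gen]
  have hvPn : v.valuation Kx (P ^ n) = WithZero.exp (-(n : ℤ)) := by
    rw [map_pow, hvP, ← WithZero.exp_nsmul]
    congr 1
    simp
  have h1 : v.valuation Kx (k * P ^ n) ≤ 1 := by
    rw [map_mul, hvPn, hm, ← WithZero.exp_add]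
    simp
  obtain ⟨c, hc⟩ := v.exists_valuation_sub_lt_of_integer h1
    (Units.mk0 (WithZero.exp (-(n : ℤ))) WithZero.exp_ne_zero)
  rw [Units.val_mk0] at hc
  refine ⟨algebraMap Rx Kx c / P ^ n, ?_, ?_⟩
  · rw [← map_sub, v_fin_coe]
    have e : k - algebraMap Rx Kx c / P ^ n = -(algebraMap Rx Kx c - k * P ^ n) / P ^ n := by
      field_simp
      ring
    rw [e, map_div₀, Valuation.map_neg, hvPn]
    refine (div_le_one₀ ?_).2 hc.le
    exact zero_lt_iff.2 WithZero.exp_ne_zero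
  · intro w hw
    rw [v_fin_coe, map_div₀, map_pow, hP, w.valuation_of_algebraMap (gen v), w_gen hw, one_pow,
      div_one]
    exact w.valuation_le_one c

theorem strong_approx_aux (S : Finset Pl) : ∀ x : (∀ v : Pl, Kv v),
    (∀ v, v ∉ S → Valued.v (x v) ≤ 1) →
    ∃ ξ : Kx, ∀ v : Pl, Valued.v (x v - algebraMap Kx (Kv v) ξ) ≤ 1 := by
  classical
  induction S using Finset.induction_on with
  | empty =>
    intro x hx
    exact ⟨0, fun v => by simpa using hx v (by simp)⟩
  | insert v S hv ih =>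
    intro x hx
    obtain ⟨k, hk⟩ := dense_fin v (x v) 1 one_ne_zero
    rw [map_one] at hk
    obtain ⟨ξ, h1, h2⟩ := one_place v k
    obtain ⟨η, hη⟩ := ih (fun w => x w - algebraMap Kx (Kv w) ξ) (by
      intro w hw
      by_cases hwv : w = v
      · subst hwv
        have e : x w - algebraMap Kx (Kv w) ξ = (x w - algebraMap Kx (Kv w) k) +
            (algebraMap Kx (Kv w) k - algebraMap Kx (Kv w) ξ) := by ring
        show Valued.v (x w - algebraMap Kx (Kv w) ξ) ≤ 1
        rw [e]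
        exact (Valuation.map_add _ _ _).trans (max_le hk.le h1)
      · refine (Valuation.map_sub _ _ _).trans (max_le (hx w ?_) (h2 w hwv))
        simp [hw, hwv])
    refine ⟨ξ + η, fun w => ?_⟩
    have := hη w
    have e : x w - algebraMap Kx (Kv w) (ξ + η) =
        x w - algebraMap Kx (Kv w) ξ - algebraMap Kx (Kv w) η := by
      rw [map_add]; ring
    rw [e]
    exact this

theorem strong_approx_fin (x : FiniteAdeleRing Rx Kx) :
    ∃ ξ : Kx, ∀ v : Pl, Valued.v (x v - algebraMap Kx (Kv v) ξ) ≤ 1 := by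
  have h : {v : Pl | ¬ Valued.v (x v) ≤ 1}.Finite := by
    have h1 := x.2
    rw [Filter.eventually_cofinite] at h1
    exact h1
  refine strong_approx_aux h.toFinset (fun v => x v) ?_
  intro v hv
  by_contra hcon
  exact hv (h.mem_toFinset.2 hcon)

theorem inf_poly (p : Rx) (hp : p ≠ 0) :
    Valued.v (algebraMap Kx Kinf (algebraMap Rx Kx p)) = WithZero.exp (p.natDegree : ℤ) := by
  rw [v_inf_coe, RatFunc.inftyValuation_apply, RatFunc.inftyValuation.polynomial _ hp]

theorem approx_inf (x : Kinf) :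
    ∃ r : Rx, Valued.v (x - algebraMap Kx Kinf (algebraMap Rx Kx r)) < 1 := by
  obtain ⟨k, hk⟩ := dense_inf x 1 one_ne_zero
  rw [map_one] at hk
  set n := k.num with hn
  set d := k.denom with hd
  have hd0 : d ≠ 0 := k.denom_ne_zero
  have hd0' : algebraMap Rx Kx d ≠ 0 := by
    rw [Ne, map_eq_zero_iff _ (IsFractionRing.injective Rx Kx)]; exact hd0
  refine ⟨n / d, ?_⟩
  have e1 : k = algebraMap Rx Kx (n / d) + algebraMap Rx Kx (n % d) / algebraMap Rx Kx d := by
    have h1 : algebraMap Rx Kx n = algebraMap Rx Kx d * algebraMap Rx Kx (n / d) +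
        algebraMap Rx Kx (n % d) := by
      rw [← map_mul, ← map_add, EuclideanDomain.div_add_mod]
    rw [← RatFunc.num_div_denom k, ← hn, ← hd, h1]
    field_simp
  have h2 : Valued.v (algebraMap Kx Kinf (algebraMap Rx Kx (n % d) / algebraMap Rx Kx d)) < 1 := by
    by_cases hr : n % d = 0
    · rw [hr]; simp
    · rw [map_div₀, map_div₀, inf_poly _ hr, inf_poly _ hd0]
      rw [div_lt_one₀ (zero_lt_iff.2 WithZero.exp_ne_zero), WithZero.exp_lt_exp]
      have := Polynomial.natDegree_lt_natDegree hr (Polynomial.degree_mod_lt n hd0)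
      exact_mod_cast this
  have e2 : x - algebraMap Kx Kinf (algebraMap Rx Kx (n / d)) = (x - algebraMap Kx Kinf k) +
      algebraMap Kx Kinf (algebraMap Rx Kx (n % d) / algebraMap Rx Kx d) := by
    have e3 : algebraMap Kx Kinf k = algebraMap Kx Kinf (algebraMap Rx Kx (n / d)) +
        algebraMap Kx Kinf (algebraMap Rx Kx (n % d) / algebraMap Rx Kx d) := by
      rw [← map_add, ← e1]
    rw [e3]; ring
  rw [e2]
  exact (Valuation.map_add _ _ _).trans_lt (max_lt hk h2)

theorem fin_deg (n : ℕ) : {p : Rx | p.degree < (n : WithBot ℕ)}.Finite := by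
  have h1 : Finite (degreeLT (ZMod 2) n) := Finite.of_equiv _ (degreeLTEquiv (ZMod 2) n).symm.toEquiv
  have h2 : {p : Rx | p.degree < (n : WithBot ℕ)} = (degreeLT (ZMod 2) n : Set Rx) := by
    ext p
    simp [mem_degreeLT]
  rw [h2]
  exact Set.toFinite _

theorem exists_unif (v : Pl) (M : ℕ) : ∃ r : Kv v, r ≠ 0 ∧ Valued.v r = WithZero.exp (-(M : ℤ)) := by
  refine ⟨algebraMap Kx (Kv v) (algebraMap Rx Kx (gen v ^ M)), ?_, ?_⟩
  · rw [Ne, map_eq_zero, map_eq_zero_iff _ (IsFractionRing.injective Rx Kx)]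
    exact pow_ne_zero _ (gen_ne_zero v)
  · rw [v_fin_coe, v.valuation_of_algebraMap, map_pow, v_gen, ← WithZero.exp_nsmul]
    congr 1
    simp

theorem fin_res_v (v : Pl) (M : ℕ) : ∃ s : Finset (Kv v), ∀ x : Kv v, Valued.v x ≤ 1 →
    ∃ y ∈ s, Valued.v y ≤ 1 ∧ Valued.v (x - y) ≤ WithZero.exp (-(M : ℤ)) := by
  classical
  set Q : Rx := gen v ^ M with hQ
  have hQ0 : Q ≠ 0 := pow_ne_zero _ (gen_ne_zero v)
  have hvQ : v.intValuation Q = WithZero.exp (-(M : ℤ)) := by
    rw [hQ, map_pow, v_gen, ← WithZero.exp_nsmul]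
    congr 1
    simp
  refine ⟨(fin_deg (Q.natDegree)).toFinset.image
    (fun p => algebraMap Kx (Kv v) (algebraMap Rx Kx p)), ?_⟩
  intro x hx
  obtain ⟨r, hr0, hr⟩ := exists_unif v M
  obtain ⟨k, hk⟩ := dense_fin v x r hr0
  rw [hr] at hk
  have hle1 : WithZero.exp (-(M : ℤ)) ≤ (1 : ℤᵐ⁰) := by
    rw [← WithZero.exp_zero, WithZero.exp_le_exp]; omega
  have hk1 : v.valuation Kx k ≤ 1 := by
    rw [← v_fin_coe]
    have e : algebraMap Kx (Kv v) k = x - (x - algebraMap Kx (Kv v) k) := by ring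
    rw [e]
    exact (Valuation.map_sub _ _ _).trans (max_le hx (hk.le.trans hle1))
  obtain ⟨a, ha⟩ := v.exists_valuation_sub_lt_of_integer hk1
    (Units.mk0 (WithZero.exp (-(M : ℤ))) WithZero.exp_ne_zero)
  rw [Units.val_mk0] at ha
  refine ⟨algebraMap Kx (Kv v) (algebraMap Rx Kx (a % Q)), ?_, vR_le v _, ?_⟩
  · rw [Finset.mem_image]
    refine ⟨a % Q, ?_, rfl⟩
    rw [Set.Finite.mem_toFinset]
    show (a % Q).degree < ((Q.natDegree : ℕ) : WithBot ℕ)
    rw [← Polynomial.degree_eq_natDegree hQ0]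
    exact Polynomial.degree_mod_lt a hQ0
  · have e : x - algebraMap Kx (Kv v) (algebraMap Rx Kx (a % Q)) =
        (x - algebraMap Kx (Kv v) k) + (algebraMap Kx (Kv v) (-(algebraMap Rx Kx a - k)) +
          algebraMap Kx (Kv v) (algebraMap Rx Kx (Q * (a / Q)))) := by
      have h1 : algebraMap Rx Kx a = algebraMap Rx Kx (Q * (a / Q)) + algebraMap Rx Kx (a % Q) := by
        rw [← map_add, EuclideanDomain.div_add_mod]
      rw [h1]
      simp only [map_neg, map_sub, map_add]
      ring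
    rw [e]
    refine (Valuation.map_add _ _ _).trans (max_le hk.le ?_)
    refine (Valuation.map_add _ _ _).trans (max_le ?_ ?_)
    · rw [v_fin_coe, Valuation.map_neg]; exact ha.le
    · rw [v_fin_coe, v.valuation_of_algebraMap, map_mul, hvQ]
      exact mul_le_of_le_one_right' (v.intValuation_le_one _)

lemma v_pinf : Valued.v (pinf : Kinf) = WithZero.exp (-1 : ℤ) := by
  show Valued.v (algebraMap Kx Kinf (RatFunc.X)⁻¹) = _
  rw [v_inf_coe, map_inv₀, RatFunc.inftyValuation.X, WithZero.exp_neg]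

theorem v_X_pow (M : ℕ) : Valued.v (algebraMap Kx Kinf (RatFunc.X ^ M)) = WithZero.exp (M : ℤ) := by
  rw [v_inf_coe, map_pow, RatFunc.inftyValuation.X, ← WithZero.exp_nsmul]
  congr 1
  simp

theorem fin_res_inf (M : ℕ) : ∃ s : Finset Kinf, ∀ x : Kinf, Valued.v x ≤ 1 →
    ∃ y ∈ s, Valued.v y ≤ 1 ∧ Valued.v (x - y) ≤ WithZero.exp (-(M : ℤ)) := by
  classical
  refine ⟨(fin_deg (M + 1)).toFinset.image
    (fun p => algebraMap Kx Kinf (algebraMap Rx Kx p / RatFunc.X ^ M)), ?_⟩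
  intro x hx
  set T : Kinf := algebraMap Kx Kinf (RatFunc.X ^ M) with hT
  have hT0 : T ≠ 0 := by
    rw [hT, Ne, map_eq_zero]
    exact pow_ne_zero _ RatFunc.X_ne_zero
  have hvT : Valued.v T = WithZero.exp (M : ℤ) := v_X_pow M
  obtain ⟨r, hr⟩ := approx_inf (x * T)
  have hle1 : (1 : ℤᵐ⁰) ≤ WithZero.exp (M : ℤ) := by
    rw [← WithZero.exp_zero, WithZero.exp_le_exp]; omega
  have hr1 : Valued.v (algebraMap Kx Kinf (algebraMap Rx Kx r)) ≤ WithZero.exp (M : ℤ) := by
    have e : algebraMap Kx Kinf (algebraMap Rx Kx r) =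
        x * T - (x * T - algebraMap Kx Kinf (algebraMap Rx Kx r)) := by ring
    rw [e]
    refine (Valuation.map_sub _ _ _).trans (max_le ?_ (hr.le.trans hle1))
    rw [map_mul, hvT]
    exact mul_le_of_le_one_left' hx
  have hdiv : algebraMap Kx Kinf (algebraMap Rx Kx r / RatFunc.X ^ M) =
      algebraMap Kx Kinf (algebraMap Rx Kx r) / T := by rw [map_div₀]
  have hpos : (0 : ℤᵐ⁰) < WithZero.exp (M : ℤ) := zero_lt_iff.2 WithZero.exp_ne_zero
  refine ⟨algebraMap Kx Kinf (algebraMap Rx Kx r / RatFunc.X ^ M), ?_, ?_, ?_⟩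
  · rw [Finset.mem_image]
    refine ⟨r, ?_, rfl⟩
    rw [Set.Finite.mem_toFinset]
    show r.degree < ((M + 1 : ℕ) : WithBot ℕ)
    by_cases hr0 : r = 0
    · rw [hr0, Polynomial.degree_zero]; exact WithBot.bot_lt_coe _
    · rw [inf_poly r hr0, WithZero.exp_le_exp] at hr1
      rw [Polynomial.degree_eq_natDegree hr0]
      exact_mod_cast (by omega : r.natDegree < M + 1)
  · rw [hdiv, map_div₀, hvT]
    exact (div_le_one₀ hpos).2 hr1
  · rw [hdiv]
    have e : x - algebraMap Kx Kinf (algebraMap Rx Kx r) / T =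
        (x * T - algebraMap Kx Kinf (algebraMap Rx Kx r)) / T := by
      field_simp
    rw [e, map_div₀, hvT, WithZero.exp_neg, div_eq_mul_inv]
    exact mul_le_of_le_one_left' hr.le

lemma res_inf (x : Kinf) : Valued.v x ≤ 1 → Valued.v x < 1 ∨ Valued.v (x - 1) < 1 := by
  intro hx
  obtain ⟨r, hr⟩ := approx_inf x
  by_cases hr0 : r = 0
  · left
    rw [hr0] at hr
    simpa using hr
  · right
    have hr1 : Valued.v (algebraMap Kx Kinf (algebraMap Rx Kx r)) ≤ 1 := by
      have e : algebraMap Kx Kinf (algebraMap Rx Kx r) =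
          x - (x - algebraMap Kx Kinf (algebraMap Rx Kx r)) := by ring
      rw [e]
      exact (Valuation.map_sub _ _ _).trans (max_le hx hr.le)
    rw [inf_poly r hr0, ← WithZero.exp_zero, WithZero.exp_le_exp] at hr1
    have hdeg : r.natDegree = 0 := by omega
    rw [Polynomial.natDegree_eq_zero] at hdeg
    obtain ⟨c, rfl⟩ := hdeg
    have hc : c = 1 := by
      have h0 : c ≠ 0 := by
        rintro rfl
        exact hr0 (by simp)
      exact (by decide : ∀ c : ZMod 2, c ≠ 0 → c = 1) c h0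
    rw [hc] at hr
    simpa using hr

end Pool.Agent.TH304.BK.J840
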