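import Pool.Agent.TH304.BK.Base

open Polynomial IsDedekindDomain Matrix MeasureTheory
open scoped WithZero RestrictedProduct

noncomputable section
namespace Pool.Agent.TH304.BK.J843
open TH824.BK Pool.Agent.TH304.BK

/-- the logarithm of the valuation -/
def lg {F : Type} [Field F] [Valued F ℤᵐ⁰] : Fˣ →* Multiplicative ℤ where
  toFun x := Multiplicative.ofAdd (WithZero.log (Valued.v (x : F)))
  map_one' := by simp
  map_mul' x y := by
    rw [Units.val_mul, map_mul, WithZero.log_mul, ofAdd_add]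
    · exact (Valuation.ne_zero_iff _).2 x.ne_zero
    · exact (Valuation.ne_zero_iff _).2 y.ne_zero

/-- the character -/
def chi {F : Type} [Field F] [Valued F ℤᵐ⁰] (c : ℂˣ) : Fˣ →* ℂˣ :=
  (zpowersHom ℂˣ c).comp lg

theorem chi_apply {F : Type} [Field F] [Valued F ℤᵐ⁰] (c : ℂˣ) (x : Fˣ) :
    chi c x = c ^ (WithZero.log (Valued.v (x : F))) := rfl

theorem chi_one {F : Type} [Field F] [Valued F ℤᵐ⁰] (c : ℂˣ) (x : Fˣ)
    (hx : Valued.v (x : F) = 1) : chi c x = 1 := by
  rw [chi_apply, hx, WithZero.log_one, zpow_zero]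

theorem chi_smooth {F : Type} [Field F] [Valued F ℤᵐ⁰] (c : ℂˣ) :
    IsOpen ((chi (F := F) c).ker : Set Fˣ) := by
  refine Subgroup.isOpen_of_mem_nhds _ (g := 1) ?_
  have h1 : {y : F | Valued.v y = Valued.v (1 : F)} ∈ nhds (1 : F) :=
    Valued.locally_const (by simp)
  have h2 : Continuous (fun x : Fˣ => (x : F)) := Units.continuous_val
  have h3 := h2.continuousAt (x := (1 : Fˣ)) |>.preimage_mem_nhds (t := {y : F | Valued.v y =
    Valued.v (1 : F)}) (by rw [Units.val_one]; exact h1)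
  refine Filter.mem_of_superset h3 ?_
  intro x hx
  have hx' : Valued.v (x : F) = Valued.v (1 : F) := hx
  rw [map_one] at hx'
  show x ∈ (chi (F := F) c).ker
  rw [MonoidHom.mem_ker]
  exact chi_one c x hx'

theorem qv_ne_zero (v : Pl) : qv v ≠ 0 := by
  unfold qv
  rw [gen_span v]
  have h1 : Module.Finite (ZMod 2) (Rx ⧸ Ideal.span {gen v}) := by
    have hb := AdjoinRoot.powerBasis (gen_ne_zero v)
    have : Module.Finite (ZMod 2) (AdjoinRoot (gen v)) := hb.finite
    exact this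
  rw [Module.natCard_eq_pow_finrank (K := ZMod 2)]
  simp

theorem card_quot (p : Rx) (hp : p ≠ 0) : Nat.card (Rx ⧸ Ideal.span {p}) = 2 ^ p.natDegree := by
  have h1 : Module.Finite (ZMod 2) (Rx ⧸ Ideal.span {p}) := by
    have hb := AdjoinRoot.powerBasis hp
    have : Module.Finite (ZMod 2) (AdjoinRoot p) := hb.finite
    exact this
  rw [Module.natCard_eq_pow_finrank (K := ZMod 2), finrank_quotient_span_eq_natDegree]
  simp

/-- the square root as a unit (with junk value 1) -/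
def sq (q : ℕ) : ℂˣ := if h : q ≠ 0 then Units.mk0 (((Real.sqrt q : ℝ) : ℂ)) (by
  simp [h]) else 1

theorem sq_val {q : ℕ} (h : q ≠ 0) : ((sq q : ℂˣ) : ℂ) = ((Real.sqrt q : ℝ) : ℂ) := by
  unfold sq
  rw [dif_pos h]
  rfl

theorem sq_pow (n : ℕ) : sq (2 ^ n) = sq 2 ^ n := by
  apply Units.ext
  rw [Units.val_pow_eq_pow_val, sq_val (by positivity), sq_val (by norm_num)]
  rw [← Complex.ofReal_pow]
  congr 1
  rw [Nat.cast_pow, Real.sqrt_eq_iff_mul_self_eq (by positivity) (by positivity), ← mul_pow,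
    Real.mul_self_sqrt (by positivity)]

/-- local factor -/
def fc (e : ℤ) (v : Pl) (x : Kxˣ) : ℂˣ :=
  chi (F := Kv v) (sq (qv v) ^ e) (Units.map (algebraMap Kx (Kv v)) x)

/-- factor at infinity -/
def fi (e : ℤ) (x : Kxˣ) : ℂˣ := chi (F := Kinf) (sq 2 ^ e) (Units.map (algebraMap Kx Kinf) x)

theorem fc_apply (e : ℤ) (v : Pl) (x : Kxˣ) :
    fc e v x = (sq (qv v) ^ e) ^ (WithZero.log (v.valuation Kx (x : Kx))) := by
  unfold fc
  rw [chi_apply]
  congr 2
  exact v_fin_coe v x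

theorem fi_apply (e : ℤ) (x : Kxˣ) :
    fi e x = (sq 2 ^ e) ^ (WithZero.log (RatFunc.inftyValuation (ZMod 2) (x : Kx))) := by
  unfold fi
  rw [chi_apply]
  congr 2
  exact v_inf_coe x

theorem fc_fin (e : ℤ) (x : Kxˣ) : (Function.mulSupport (fun v => fc e v x)).Finite := by
  have h1 := eventually_val_le (x : Kx)
  have h2 := eventually_val_le ((x⁻¹ : Kxˣ) : Kx)
  have h3 := h1.and h2
  rw [Filter.eventually_cofinite] at h3
  refine h3.subset ?_
  intro v hv hc
  apply hv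
  have hx0 : v.valuation Kx (x : Kx) ≠ 0 := (Valuation.ne_zero_iff _).2 x.ne_zero
  have hval : v.valuation Kx (x : Kx) = 1 := by
    obtain ⟨h4, h5⟩ := hc
    rw [v_fin_coe] at h4 h5
    rw [Units.val_inv_eq_inv_val, map_inv₀] at h5
    exact le_antisymm h4 ((inv_le_one₀ (zero_lt_iff.2 hx0)).1 h5)
  show fc e v x = 1
  rw [fc_apply, hval, WithZero.log_one, zpow_zero]

/-- the total product -/
def tot (e : ℤ) : Kxˣ →* ℂˣ where
  toFun x := (∏ᶠ v : Pl, fc e v x) * fi e x
  map_one' := by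
    have : ∀ v : Pl, fc e v 1 = 1 := fun v => by
      unfold fc; rw [map_one, map_one]
    simp only [this, finprod_one, one_mul]
    unfold fi; rw [map_one, map_one]
  map_mul' x y := by
    have : ∀ v : Pl, fc e v (x * y) = fc e v x * fc e v y := fun v => by
      unfold fc; rw [map_mul, map_mul]
    simp only [this]
    rw [finprod_mul_distrib (fc_fin e x) (fc_fin e y)]
    have h2 : fi e (x * y) = fi e x * fi e y := by unfold fi; rw [map_mul, map_mul]
    rw [h2]
    exact mul_mul_mul_comm _ _ _ _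

theorem aM_ne_zero {p : Rx} (hp : p ≠ 0) : algebraMap Rx Kx p ≠ 0 := by
  rw [Ne, map_eq_zero_iff _ (IsFractionRing.injective Rx Kx)]
  exact hp

/-- unit of a nonzero polynomial -/
def uP (p : Rx) (hp : p ≠ 0) : Kxˣ := Units.mk0 (algebraMap Rx Kx p) (aM_ne_zero hp)

theorem tot_irr (e : ℤ) (p : Rx) (hp : Irreducible p) : tot e (uP p hp.ne_zero) = 1 := by
  have hp0 := hp.ne_zero
  have hprime : (Ideal.span {p} : Ideal Rx).IsPrime := by
    rw [Ideal.span_singleton_prime hp0]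
    exact hp.prime
  set v : Pl := ⟨Ideal.span {p}, hprime, by
    rw [Ne, Ideal.span_singleton_eq_bot]; exact hp0⟩ with hv
  have hval : v.valuation Kx (algebraMap Rx Kx p) = WithZero.exp (-1 : ℤ) := by
    rw [v.valuation_of_algebraMap]
    exact v.intValuation_singleton hp0 rfl
  have hw : ∀ w : Pl, w ≠ v → w.valuation Kx (algebraMap Rx Kx p) = 1 := by
    intro w hw
    rw [w.valuation_of_algebraMap]
    refine HeightOneSpectrum.intValuation_eq_one_iff.2 ?_
    intro hm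
    apply hw
    have h1 : v.asIdeal ≤ w.asIdeal := by
      show Ideal.span {p} ≤ w.asIdeal
      rw [Ideal.span_singleton_le_iff_mem]; exact hm
    exact (HeightOneSpectrum.ext (v.isMaximal.eq_of_le w.isPrime.ne_top h1)).symm
  have hfin : ∏ᶠ w : Pl, fc e w (uP p hp0) = fc e v (uP p hp0) := by
    refine finprod_eq_single _ v ?_
    intro w hwv
    rw [fc_apply]
    show (sq (qv w) ^ e) ^ (WithZero.log (w.valuation Kx (algebraMap Rx Kx p))) = 1
    rw [hw w hwv, WithZero.log_one, zpow_zero]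
  show (∏ᶠ w : Pl, fc e w (uP p hp0)) * fi e (uP p hp0) = 1
  rw [hfin, fc_apply, fi_apply]
  show (sq (qv v) ^ e) ^ (WithZero.log (v.valuation Kx (algebraMap Rx Kx p))) *
    (sq 2 ^ e) ^ (WithZero.log (RatFunc.inftyValuation (ZMod 2) (algebraMap Rx Kx p))) = 1
  rw [hval, RatFunc.inftyValuation_apply, RatFunc.inftyValuation.polynomial _ hp0,
    WithZero.log_exp, WithZero.log_exp]
  have hq : qv v = 2 ^ p.natDegree := card_quot p hp0
  rw [hq, sq_pow, ← zpow_natCast (sq 2), ← _root_.zpow_mul, ← _root_.zpow_mul, ← _root_.zpow_mul, ← _root_.zpow_add]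
  have : (p.natDegree : ℤ) * (e * -1) + e * p.natDegree = 0 := by ring
  rw [this, zpow_zero]

theorem tot_unit (e : ℤ) (p : Rx) (hp : IsUnit p) (hp0 : p ≠ 0) : tot e (uP p hp0) = 1 := by
  obtain ⟨c, hc, rfl⟩ := Polynomial.isUnit_iff.1 hp
  have hc1 : c = 1 := by
    have h0 : c ≠ 0 := hc.ne_zero
    exact (by decide : ∀ c : ZMod 2, c ≠ 0 → c = 1) c h0
  subst hc1
  have : uP (C 1) hp0 = 1 := by
    apply Units.ext
    show algebraMap Rx Kx (C 1) = 1
    simp
  rw [this, map_one]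

theorem tot_poly (e : ℤ) (p : Rx) (hp : p ≠ 0) : tot e (uP p hp) = 1 := by
  revert hp
  refine WfDvdMonoid.induction_on_irreducible
    (motive := fun p : Rx => ∀ hp : p ≠ 0, tot e (uP p hp) = 1) p ?_ ?_ ?_
  · intro h; exact absurd rfl h
  · intro u hu h0
    exact tot_unit e u hu h0
  · intro a i ha hi ih h0
    have : uP (i * a) h0 = uP i hi.ne_zero * uP a ha := by
      apply Units.ext
      show algebraMap Rx Kx (i * a) = algebraMap Rx Kx i * algebraMap Rx Kx a
      rw [map_mul]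
    rw [this, map_mul, tot_irr e i hi, ih ha, one_mul]

theorem tot_eq_one (e : ℤ) (x : Kxˣ) : tot e x = 1 := by
  have hn : (x : Kx).num ≠ 0 := by
    rw [Ne, RatFunc.num_eq_zero_iff]; exact x.ne_zero
  have hd : (x : Kx).denom ≠ 0 := RatFunc.denom_ne_zero _
  have e1 : x = uP _ hn * (uP _ hd)⁻¹ := by
    apply Units.ext
    rw [Units.val_mul, Units.val_inv_eq_inv_val]
    show (x : Kx) = algebraMap Rx Kx _ * (algebraMap Rx Kx _)⁻¹
    rw [← div_eq_mul_inv, RatFunc.num_div_denom]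
  rw [e1, map_mul, map_inv, tot_poly, tot_poly, inv_one, one_mul]

/-- the Hecke character -/
def hk (e : ℤ) : HeckeChar where
  fin := fun v => chi (sq (qv v) ^ e)
  inf := chi (sq 2 ^ e)
  smooth_fin := fun _ => chi_smooth _
  smooth_inf := chi_smooth _
  unram := Filter.Eventually.of_forall fun _ x hx => chi_one _ x hx
  prod_eq_one x := tot_eq_one e x

theorem exists_hecke : ∃ χ₁ χ₂ : HeckeChar,
    (∀ v x, ((χ₁.fin v x : ℂˣ) : ℂ) = (sqrtAbs (qv v) x)⁻¹) ∧
    (∀ v x, ((χ₂.fin v x : ℂˣ) : ℂ) = sqrtAbs (qv v) x) ∧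
    (∀ x, ((χ₁.inf x : ℂˣ) : ℂ) = (sqrtAbs 2 x)⁻¹) ∧
    (∀ x, ((χ₂.inf x : ℂˣ) : ℂ) = sqrtAbs 2 x) := by
  refine ⟨hk (-1), hk 1, ?_, ?_, ?_, ?_⟩
  · intro v x
    show ((chi (sq (qv v) ^ (-1 : ℤ)) x : ℂˣ) : ℂ) = _
    rw [chi_apply, _root_.zpow_neg_one, _root_.inv_zpow, Units.val_inv_eq_inv_val, Units.val_zpow_eq_zpow_val,
      sq_val (qv_ne_zero v)]
    rfl
  · intro v x
    show ((chi (sq (qv v) ^ (1 : ℤ)) x : ℂˣ) : ℂ) = _
    rw [chi_apply, _root_.zpow_one, Units.val_zpow_eq_zpow_val, sq_val (qv_ne_zero v)]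
    rfl
  · intro x
    show ((chi (sq 2 ^ (-1 : ℤ)) x : ℂˣ) : ℂ) = _
    rw [chi_apply, _root_.zpow_neg_one, _root_.inv_zpow, Units.val_inv_eq_inv_val, Units.val_zpow_eq_zpow_val,
      sq_val (by norm_num)]
    rfl
  · intro x
    show ((chi (sq 2 ^ (1 : ℤ)) x : ℂˣ) : ℂ) = _
    rw [chi_apply, _root_.zpow_one, Units.val_zpow_eq_zpow_val, sq_val (by norm_num)]
    rfl

end Pool.Agent.TH304.BK.J843
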